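import Mathlib

namespace Pool.Agent.Results.MP_22eee4_an.Counter
open Finset

/-- `χ 1 = 1` and `χ i = max_{1 ≤ j ≤ i - 1} (j + 1) (i - χ j)` for `i > 1` (`χ 0` is unused). -/
def chi : ℕ → ℤ
  | 0 => 0
  | 1 => 1
  | n + 2 => (univ : Finset (Fin (n + 1))).sup' univ_nonempty
      fun j => ((j : ℕ) + 1 + 1) * (n + 2 - chi (j + 1))
decreasing_by omega

theorem le (i j : ℕ) (h : 1 ≤ j) (h' : j < i) : (j + 1) * (i - chi j) ≤ chi i := by
  obtain ⟨j, rfl⟩ := Nat.exists_eq_add_of_le' h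
  obtain ⟨n, rfl⟩ : ∃ n, i = n + 2 := ⟨i - 2, by omega⟩
  rw [chi]
  exact le_sup'_of_le _ (mem_univ ⟨j, by omega⟩) (by simp)

theorem c1 : chi 1 = 1 := by rw [chi]

theorem lo (i : ℕ) : (i : ℤ) ≤ chi i := by
  rcases i with _ | _ | i
  · simp [chi]
  · simp [chi]
  · have := le (i + 1 + 1) 1 le_rfl (by omega)
    rw [c1] at this
    push_cast at this ⊢
    omega

theorem up (i : ℕ) : chi i ≤ i ^ 2 := by
  rcases i with _ | _ | i
  · simp [chi]
  · simp [chi]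
  · rw [chi]
    refine sup'_le _ _ fun j _ => ?_
    have h1 := lo (j + 1)
    have h2 : ((j : ℕ) : ℤ) < i + 1 := by exact_mod_cast j.2
    push_cast at h1 ⊢
    nlinarith [(Nat.cast_nonneg j : (0 : ℤ) ≤ (j : ℕ))]

theorem c2 : chi 2 = 2 := by simp [chi]
theorem c3 : chi 3 = 4 := by
  rw [chi]
  simp [Fin.univ_succ, c1, c2]
theorem c4 : chi 4 = 6 := by
  rw [chi]
  simp [Fin.univ_succ, c1, c2, c3]

theorem lo' (i : ℕ) : (i : ℝ) ≤ chi i := by exact_mod_cast lo i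

theorem nn (i : ℕ) : (0 : ℝ) ≤ chi i := i.cast_nonneg.trans (lo' i)

theorem le' (i j : ℕ) (h : 1 ≤ j) (h' : j < i) : ((j : ℝ) + 1) * (i - chi j) ≤ chi i := by
  exact_mod_cast le i j h h'

theorem sm : Summable fun k : ℕ => 1 / (chi (k + 1) : ℝ) := by
  rw [← summable_nat_add_iff 1]
  refine .of_nonneg_of_le (fun k => div_nonneg one_pos.le (nn _)) (fun k => ?_)
    (((summable_nat_add_iff 2).2 (Real.summable_one_div_nat_rpow.2
      (show (1 : ℝ) < 3 / 2 by norm_num))).mul_left 3)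
  have h1 := Nat.sqrt_le' ((k + 2) / 2)
  have h2 := Nat.lt_succ_sqrt' ((k + 2) / 2)
  have h3 : 1 ≤ Nat.sqrt ((k + 2) / 2) := Nat.sqrt_pos.2 (by omega)
  generalize Nat.sqrt ((k + 2) / 2) = j at h1 h2 h3
  rw [Nat.succ_eq_add_one] at h2
  have h4 : 2 * (j : ℝ) ^ 2 ≤ (k + 2 : ℕ) := by exact_mod_cast (by omega : 2 * j ^ 2 ≤ k + 2)
  have h5 : ((k + 2 : ℕ) : ℝ) ≤ 2 * (j + 1) ^ 2 := by
    exact_mod_cast (by omega : k + 2 ≤ 2 * (j + 1) ^ 2)
  have h6 := le' (k + 2) j h3 (by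
    have : j ≤ j ^ 2 := Nat.le_self_pow two_ne_zero j
    omega)
  have h7 : (chi j : ℝ) ≤ j ^ 2 := by exact_mod_cast up j
  have h8 : (0 : ℝ) < (k + 2 : ℕ) := by positivity
  generalize ((k + 2 : ℕ) : ℝ) = x at *
  have h9 : ((j : ℝ) + 1) * (x / 2) ≤ chi (k + 2) :=
    le_trans (mul_le_mul_of_nonneg_left (by linarith) (by positivity)) h6
  have h10 : x ^ (3 / 2 : ℝ) ≤ 3 * (((j : ℝ) + 1) * (x / 2)) := by
    refine (pow_le_pow_iff_left₀ (by positivity) (by positivity) two_ne_zero).1 ?_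
    rw [← Real.rpow_natCast, ← Real.rpow_mul h8.le]
    norm_num
    nlinarith [sq_nonneg x, mul_le_mul_of_nonneg_left h5 (sq_nonneg x), sq_nonneg (x * (j + 1))]
  rw [mul_one_div, div_le_div_iff₀ (lt_of_lt_of_le (by positivity) h9) (by positivity)]
  linarith

theorem result : ∃ a : ℕ → ℝ, (∀ i j : ℕ, 1 ≤ i → 1 ≤ j → (j + 1) * a j + a i ≥ (j + 1) * i) ∧
    (Summable fun k : ℕ => 1 / a (k + 1)) ∧ (Summable fun k : ℕ => 1 / (chi (k + 1) : ℝ)) ∧
    ∑' k : ℕ, 1 / (chi (k + 1) : ℝ) < ∑' k : ℕ, 1 / a (k + 1) := by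
  obtain ⟨a, ha⟩ : ∃ a : ℕ → ℝ, ∀ k, a k = if k ≤ 4 then 2 * (k : ℝ) - 4 / 3 else chi k :=
    ⟨_, fun _ => rfl⟩
  have h1 : ∀ k : ℕ, 2 * (k : ℝ) - 4 / 3 ≤ a k := fun k => by
    rw [ha]
    split_ifs with h
    · rfl
    have h2 := le' k 2 (by omega) (by omega)
    have h3 : (5 : ℝ) ≤ k := by exact_mod_cast not_le.1 h
    rw [c2] at h2
    push_cast at h2
    linarith
  have h2 : ∀ k, 2 ≤ k → (chi k : ℝ) ≤ a k := fun k hk => by
    rw [ha]
    split_ifs with h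
    · interval_cases k <;> norm_num [c2, c3, c4]
    · rfl
  have ht : (fun k : ℕ => 1 / a (k + 4 + 1)) = fun k => 1 / (chi (k + 4 + 1) : ℝ) := by
    funext k
    rw [ha, if_neg (by omega)]
  have hs : Summable fun k : ℕ => 1 / a (k + 1) := by
    rw [← summable_nat_add_iff 4, ht]
    exact (summable_nat_add_iff 4).2 sm
  refine ⟨a, fun i j hi hj => ?_, hs, sm, ?_⟩
  · have h3 := h1 i
    have h4 : (1 : ℝ) ≤ i := by exact_mod_cast hi
    rcases hj.eq_or_lt with rfl | hj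
    · have := h1 1
      push_cast at this ⊢
      linarith
    have h5 := mul_le_mul_of_nonneg_left (h2 j hj) (show (0 : ℝ) ≤ j + 1 by positivity)
    rcases lt_or_ge j i with h | h
    · linarith [le' i j hj.le h, h2 i (by omega)]
    · have h6 : (i : ℝ) ≤ chi j := (Nat.cast_le.2 h).trans (lo' j)
      linarith [mul_le_mul_of_nonneg_left h6 (show (0 : ℝ) ≤ j + 1 by positivity)]
  · rw [← hs.sum_add_tsum_nat_add 4, ← sm.sum_add_tsum_nat_add 4, ht]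
    norm_num [sum_range_succ, ha, c1, c2, c3, c4]

end Pool.Agent.Results.MP_22eee4_an.Counter
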